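import Pool.Agent.W622.BK.Stm

/-!
# Project BK: explicit decomposition of trilinear forms (part ABL)
-/

set_option autoImplicit false

namespace Pool.Agent.W412.BK

universe u

section

variable {k : Type u} [Field k] {E : Type u} [AddCommGroup E] [Module k E]

/-- `(a, e, e') ↦ τ (f a) (g e) (h e')` -/
noncomputable def tri (τ : E →ₗ[k] E →ₗ[k] E →ₗ[k] k) (f g h : E →ₗ[k] E) :
    E →ₗ[k] E →ₗ[k] E →ₗ[k] k :=
  (τ.compl₁₂ f g).compr₂ (LinearMap.lcomp k k h)

theorem tri_apply (τ : E →ₗ[k] E →ₗ[k] E →ₗ[k] k) (f g h : E →ₗ[k] E) (a e e' : E) :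
    tri τ f g h a e e' = τ (f a) (g e) (h e') := rfl

/-- `(a, e, e') ↦ τ a e' e` -/
noncomputable def swp (τ : E →ₗ[k] E →ₗ[k] E →ₗ[k] k) : E →ₗ[k] E →ₗ[k] E →ₗ[k] k :=
  (LinearMap.lflip (R₀ := k) (M := E) (N := E) (P := k)).toLinearMap ∘ₗ τ

theorem swp_apply (τ : E →ₗ[k] E →ₗ[k] E →ₗ[k] k) (a e e' : E) :
    swp τ a e e' = τ a e' e := rfl

end

theorem t_ABL : Pool.Agent.W622.BK.S_ABL.{u} := by
  intro k _ E _ _ π τ τ₁ τ₂ _ hπ hτπ hτ h1 h2
  set w : E →ₗ[k] E := LinearMap.id - π with hw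
  have hwa : ∀ e, w e = e - π e := fun e => rfl
  have hπw : ∀ e, π (w e) = 0 := by
    intro e
    rw [hwa, map_sub, hπ, sub_self]
  -- skewness
  have s1 : ∀ x y t, τ₁ x y t = - τ₁ y x t := by
    intro x y t
    have h := h1 (x + y) t
    simp only [map_add, LinearMap.add_apply] at h
    rw [h1 x t, h1 y t] at h
    linear_combination h
  have s2 : ∀ x y t, τ₂ x y t = - τ₂ x t y := by
    intro x y t
    have h := h2 x (y + t)
    simp only [map_add, LinearMap.add_apply] at h
    rw [h2 x y, h2 x t] at h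
    linear_combination h
  have hz : ∀ z, π z = 0 → ∀ y t, τ₁ z y t = - τ₂ z y t := by
    intro z hz y t
    have h := hτ z y t
    rw [← hτπ z y t, hz, map_zero, LinearMap.zero_apply, LinearMap.zero_apply] at h
    linear_combination -h
  have hA : ∀ x z, π z = 0 → τ₁ x z x = 0 := by
    intro x z hz'
    rw [s1, hz z hz', h2]
    simp
  have hB : ∀ x z, π z = 0 → τ₁ x z z = 0 := by
    intro x z hz'
    rw [s1, hz z hz', s2]
    have h := hz z hz' z x
    rw [h1] at h
    rw [neg_neg]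
    exact h.symm
  refine ⟨tri τ₁ π π LinearMap.id + swp (tri τ₁ π w π),
    tri τ₂ π LinearMap.id LinearMap.id + tri τ₁ π w w + tri τ₁ π w π +
      (-1 : k) • swp (tri τ₁ π w π),
    ?_, ?_, ?_, ?_, ?_⟩
  · intro a e e'
    simp only [LinearMap.add_apply, LinearMap.smul_apply, smul_eq_mul, tri_apply, swp_apply, LinearMap.id_apply]
    rw [← hτπ a e e', hτ]
    simp only [hwa, map_sub, LinearMap.sub_apply]
    ring
  · intro a e'
    simp only [LinearMap.add_apply, tri_apply, swp_apply, LinearMap.id_apply]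
    rw [h1, hA _ _ (hπw e'), add_zero]
  · intro a e e'
    simp only [LinearMap.add_apply, tri_apply, swp_apply, LinearMap.id_apply, hπ]
  · intro a e
    simp only [LinearMap.add_apply, LinearMap.smul_apply, smul_eq_mul, tri_apply, swp_apply, LinearMap.id_apply]
    rw [h2, hB _ _ (hπw e)]
    ring
  · intro a e e'
    simp only [LinearMap.add_apply, LinearMap.smul_apply, smul_eq_mul, tri_apply, swp_apply, LinearMap.id_apply,
      hπ]

end Pool.Agent.W412.BK
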